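import Mathlib

/-!
Injective hulls of simple modules over an arbitrary ring.
-/

set_option autoImplicit false

namespace Pool.Agent.GW215

open CategoryTheory

/-- Every module embeds in an injective (Baer) one. -/
theorem exists_baer (F : Type) [Ring F] (V : Type) [AddCommGroup V] [Module F V] :
    ∃ (J : Type) (_ : AddCommGroup J) (_ : Module F J), Module.Baer F J ∧
      ∃ i : V →ₗ[F] J, Function.Injective i := by
  let X : ModuleCat.{0} F := ModuleCat.of F V
  let P := (EnoughInjectives.presentation X).some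
  have hJ : Injective P.J := P.injective
  have : Injective (ModuleCat.of F P.J) := hJ
  have h1 : Module.Injective F P.J := Module.injective_module_of_injective_object F P.J
  refine ⟨P.J, inferInstance, inferInstance, Module.Baer.of_injective h1, P.f.hom, ?_⟩
  exact (ModuleCat.mono_iff_injective P.f).1 P.mono

/-- Factorisation property of Baer modules. -/
theorem baer_factor {F : Type} [Ring F] {J : Type} [AddCommGroup J] [Module F J]
    (hJ : Module.Baer F J) {X Z : Type} [AddCommGroup X] [Module F X] [AddCommGroup Z] [Module F Z]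
    (f : X →ₗ[F] Z) (g : X →ₗ[F] J) (h : ∀ x, f x = 0 → g x = 0) :
    ∃ q : Z →ₗ[F] J, ∀ x, q (f x) = g x := by
  have hle : LinearMap.ker f ≤ LinearMap.ker g := fun x hx => h x hx
  obtain ⟨q, hq⟩ := Module.Baer.extension_property hJ ((LinearMap.ker f).liftQ f le_rfl)
    (by
      rw [← LinearMap.ker_eq_bot]
      exact Submodule.ker_liftQ_eq_bot _ _ _ le_rfl)
    ((LinearMap.ker f).liftQ g hle)
  refine ⟨q, fun x => ?_⟩
  have := LinearMap.congr_fun hq ((LinearMap.ker f).mkQ x)
  simpa using this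

/-- Injective hull of a simple module (generated by `v`). -/
theorem exists_hull (F : Type) [Ring F] (V : Type) [AddCommGroup V] [Module F V] (v : V)
    (hs : ∀ w : V, w ≠ 0 → ∃ a : F, a • w = v) :
    ∃ (I : Type) (_ : AddCommGroup I) (_ : Module F I), Module.Baer F I ∧
      ∃ i : V →ₗ[F] I, Function.Injective i ∧ ∀ x : I, x ≠ 0 → ∃ a : F, a • x = i v := by
  classical
  obtain ⟨J, _, _, hJ, i₀, hi₀⟩ := exists_baer F V
  -- maximal submodule all of whose nonzero elements generate `i₀ v`.
  obtain ⟨H, hle, hmax⟩ := zorn_le_nonempty₀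
    {H : Submodule F J | ∀ x ∈ H, x ≠ 0 → ∃ a : F, a • x = i₀ v}
    (fun S hS hc y hy => ⟨sSup S, by
      intro x hx hx0
      obtain ⟨U, hU, hxU⟩ := (Submodule.mem_sSup_of_directed ⟨y, hy⟩ hc.directedOn).1 hx
      exact hS hU x hxU hx0, fun z hz => le_sSup hz⟩) (LinearMap.range i₀) (by
        rintro _ ⟨w, rfl⟩ hw
        have hw0 : w ≠ 0 := fun h => hw (by rw [h, map_zero])
        obtain ⟨a, ha⟩ := hs w hw0
        exact ⟨a, by rw [← map_smul, ha]⟩)
  have hH : ∀ x ∈ H, x ≠ 0 → ∃ a : F, a • x = i₀ v := hmax.prop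
  -- maximal submodule disjoint from `H`
  obtain ⟨K, -, hKmax⟩ := zorn_le_nonempty₀
    {K : Submodule F J | ∀ x ∈ K, x ∈ H → x = 0}
    (fun S hS hc y hy => ⟨sSup S, by
      intro x hx hxH
      obtain ⟨U, hU, hxU⟩ := (Submodule.mem_sSup_of_directed ⟨y, hy⟩ hc.directedOn).1 hx
      exact hS hU x hxU hxH, fun z hz => le_sSup hz⟩) ⊥ (by
        intro x hx _
        simpa using hx)
  have hK : ∀ x ∈ K, x ∈ H → x = 0 := hKmax.prop
  -- extend the inclusion of `H`
  obtain ⟨q, hq⟩ := baer_factor hJ (K.mkQ ∘ₗ H.subtype) H.subtype (by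
    intro x hx
    have : (x : J) ∈ K := by simpa using hx
    exact hK _ this x.2)
  have hqH : ∀ x ∈ H, q (K.mkQ x) = x := fun x hx => hq ⟨x, hx⟩
  -- `q` is injective
  have hqinj : ∀ y : J, q (K.mkQ y) = 0 → y ∈ K := by
    intro y hy
    have h1 : K ⊔ LinearMap.ker (q ∘ₗ K.mkQ) ≤ K := by
      refine hKmax.le_of_ge ?_ le_sup_left
      intro x hx hxH
      have hKle : K ≤ LinearMap.ker (q ∘ₗ K.mkQ) := by
        intro z hz
        have : K.mkQ z = 0 := by simpa using hz
        simp [LinearMap.mem_ker, this]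
      have hx' : x ∈ LinearMap.ker (q ∘ₗ K.mkQ) := by
        rwa [sup_eq_right.2 hKle] at hx
      have : q (K.mkQ x) = 0 := hx'
      rw [hqH x hxH] at this
      exact this
    exact h1 (Submodule.mem_sup_right hy)
  -- the image of `q` is `H`
  have hrange : ∀ y : J, q (K.mkQ y) ∈ H := by
    intro y
    have h1 : H ⊔ LinearMap.range (q ∘ₗ K.mkQ) ≤ H := by
      refine hmax.le_of_ge ?_ le_sup_left
      intro x hx hx0
      have hHle : H ≤ LinearMap.range (q ∘ₗ K.mkQ) := fun z hz => ⟨z, hqH z hz⟩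
      rw [sup_eq_right.2 hHle] at hx
      obtain ⟨y, rfl⟩ := hx
      have hyK : y ∉ K := by
        intro hy
        apply hx0
        have : K.mkQ y = 0 := by simpa using hy
        show q (K.mkQ y) = 0
        rw [this, map_zero]
      -- `K + F y` meets `H`
      have h2 : ¬ (∀ x ∈ K ⊔ Submodule.span F {y}, x ∈ H → x = 0) := by
        intro h
        have := hKmax.le_of_ge (y := K ⊔ Submodule.span F {y}) h le_sup_left
        exact hyK (this (Submodule.mem_sup_right (Submodule.mem_span_singleton_self y)))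
      push Not at h2
      obtain ⟨x, hx, hxH, hxne⟩ := h2
      obtain ⟨κ, hκ, z, hz, hxz⟩ := Submodule.mem_sup.1 hx
      obtain ⟨a, rfl⟩ := Submodule.mem_span_singleton.1 hz
      obtain ⟨b, hb⟩ := hH x hxH hxne
      refine ⟨b * a, ?_⟩
      have h3 : a • q (K.mkQ y) = x := by
        rw [← hqH x hxH, ← hxz]
        have : K.mkQ κ = 0 := by simpa using hκ
        rw [map_add, this, zero_add, map_smul, map_smul]
      show (b * a) • q (K.mkQ y) = i₀ v
      rw [mul_smul, h3, hb]
    exact h1 (Submodule.mem_sup_right ⟨y, rfl⟩)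
  let p : J →ₗ[F] H := LinearMap.codRestrict H (q ∘ₗ K.mkQ) hrange
  have hp : ∀ x : H, p (x : J) = x := fun x => Subtype.ext (hqH x x.2)
  refine ⟨H, inferInstance, inferInstance, ?_, ?_⟩
  · intro A g
    obtain ⟨g', hg'⟩ := hJ A (H.subtype ∘ₗ g)
    refine ⟨p ∘ₗ g', fun x hx => ?_⟩
    show p (g' x) = g ⟨x, hx⟩
    rw [hg' x hx]
    exact hp _
  · have hmem : ∀ w : V, i₀ w ∈ H := fun w => hle ⟨w, rfl⟩
    refine ⟨LinearMap.codRestrict H i₀ hmem, ?_, ?_⟩
    · intro a b hab
      exact hi₀ (congrArg Subtype.val hab)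
    · intro x hx
      have hx0 : (x : J) ≠ 0 := fun h => hx (Subtype.ext h)
      obtain ⟨a, ha⟩ := hH x x.2 hx0
      exact ⟨a, Subtype.ext ha⟩

end Pool.Agent.GW215
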