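import Mathlib

/-!
Rings which are finite over their centre.
-/

set_option autoImplicit false

namespace Pool.Agent.GW215

open scoped BigOperators
open MulOpposite

/-- elementary form of finiteness over the centre. -/
theorem finC_iff (A : Type) [Ring A] : Module.Finite (Subring.center A) A ↔
    ∃ (n : ℕ) (b : Fin n → A), ∀ x : A, ∃ c : Fin n → A, (∀ i, c i ∈ Subring.center A) ∧
      x = ∑ i, c i * b i := by
  constructor
  · intro h
    obtain ⟨n, b, hb⟩ := Module.Finite.exists_fin (R := Subring.center A) (M := A)
    refine ⟨n, b, fun x => ?_⟩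
    have hx : x ∈ Submodule.span (Subring.center A) (Set.range b) := by rw [hb]; trivial
    obtain ⟨c, hc⟩ := (Submodule.mem_span_range_iff_exists_fun _).1 hx
    exact ⟨fun i => (c i : A), fun i => (c i).2, hc.symm⟩
  · rintro ⟨n, b, h⟩
    refine ⟨⟨(Set.range b).toFinite.toFinset, ?_⟩⟩
    rw [Set.Finite.coe_toFinset, eq_top_iff]
    intro x _
    rw [Submodule.mem_span_range_iff_exists_fun]
    obtain ⟨c, hc, rfl⟩ := h x
    exact ⟨fun i => ⟨c i, hc i⟩, rfl⟩

theorem mem_center_of_op {A B : Type} [Ring A] [Ring B] (f : A ≃+* Bᵐᵒᵖ) {b : B}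
    (hb : b ∈ Subring.center B) : f.symm (op b) ∈ Subring.center A := by
  rw [Subring.mem_center_iff] at hb ⊢
  intro a
  apply f.injective
  rw [map_mul, map_mul, RingEquiv.apply_symm_apply]
  apply unop_injective
  rw [unop_mul, unop_mul, unop_op]
  exact (hb _).symm

theorem finC_of_op {A B : Type} [Ring A] [Ring B] (f : A ≃+* Bᵐᵒᵖ)
    (h : Module.Finite (Subring.center A) A) : Module.Finite (Subring.center B) B := by
  rw [finC_iff] at h ⊢
  obtain ⟨n, b, h⟩ := h
  let g : B ≃+* Aᵐᵒᵖ := (RingEquiv.opOp B).trans (RingEquiv.op f.symm)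
  have hg : ∀ x, unop (g x) = f.symm (op x) := fun x => rfl
  have hg' : ∀ a, g.symm (op a) = unop (f a) := fun x => rfl
  refine ⟨n, fun i => unop (f (b i)), fun x => ?_⟩
  obtain ⟨c, hc, hx⟩ := h (f.symm (op x))
  refine ⟨fun i => unop (f (c i)), fun i => ?_, ?_⟩
  · have := mem_center_of_op g (hc i)
    rw [hg'] at this
    exact this
  · have h1 : op x = f (∑ i, c i * b i) := by rw [← hx, RingEquiv.apply_symm_apply]
    have h2 : x = unop (f (∑ i, c i * b i)) := by rw [← h1, unop_op]
    rw [h2, map_sum, Finset.unop_sum]
    refine Finset.sum_congr rfl fun i _ => ?_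
    rw [map_mul, unop_mul]
    have h3 := mem_center_of_op g (hc i)
    rw [hg', Subring.mem_center_iff] at h3
    exact h3 _

set_option synthInstance.maxHeartbeats 400000 in
/-- Over an algebra finite over a noetherian ring, the residue ring of the endomorphism ring of a
finitely generated module is finite over its centre. -/
theorem finC_of_finite {k S : Type} [CommRing k] [IsNoetherianRing k] [Ring S] [Algebra k S]
    [Module.Finite k S] {N : Type} [AddCommGroup N] [Module S N] [Module.Finite S N] :
    Module.Finite (Subring.center (Module.End S N ⧸ Ring.jacobson (Module.End S N)))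
      (Module.End S N ⧸ Ring.jacobson (Module.End S N)) := by
  classical
  let _ : Module k N := Module.compHom N (algebraMap k S)
  have : IsScalarTower k S N := ⟨fun a s x => by
    show (a • s) • x = algebraMap k S a • s • x
    rw [Algebra.smul_def, mul_smul]⟩
  have : SMulCommClass S k N := ⟨fun s a x => by
    show s • algebraMap k S a • x = algebraMap k S a • s • x
    rw [← mul_smul, ← mul_smul, Algebra.commutes]⟩
  have : Module.Finite k N := Module.Finite.trans S N
  obtain ⟨n, b, hb⟩ := Module.Finite.exists_fin (R := S) (M := N)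
  let φ : Module.End S N →ₗ[k] (Fin n → N) :=
    { toFun := fun l i => l (b i)
      map_add' := fun _ _ => rfl
      map_smul' := fun _ _ => rfl }
  have hφ : Function.Injective φ := by
    intro l l' h
    apply LinearMap.ext_on_range hb
    intro i
    exact congrFun h i
  have : IsNoetherian k (Fin n → N) := inferInstance
  have : IsNoetherian k (Module.End S N) := isNoetherian_of_injective φ hφ
  obtain ⟨m, d, hd⟩ := Module.Finite.exists_fin (R := k) (M := Module.End S N)
  rw [finC_iff]
  refine ⟨m, fun i => Ideal.Quotient.mk _ (d i), fun x => ?_⟩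
  obtain ⟨l, rfl⟩ := Ideal.Quotient.mk_surjective x
  have hl : l ∈ Submodule.span k (Set.range d) := by rw [hd]; trivial
  obtain ⟨c, rfl⟩ := (Submodule.mem_span_range_iff_exists_fun _).1 hl
  refine ⟨fun i => Ideal.Quotient.mk _ (algebraMap k (Module.End S N) (c i)), fun i => ?_, ?_⟩
  · rw [Subring.mem_center_iff]
    intro y
    obtain ⟨y, rfl⟩ := Ideal.Quotient.mk_surjective y
    rw [← map_mul, ← map_mul, Algebra.commutes]
  · rw [map_sum]
    refine Finset.sum_congr rfl fun i _ => ?_
    rw [← map_mul, Algebra.smul_def]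

end Pool.Agent.GW215
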