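import Pool.Agent.GW215.Dual

/-!
Local endomorphism rings and residue division rings.
-/

set_option autoImplicit false

namespace Pool.Agent.GW215

open scoped BigOperators
open MulOpposite

/-! ### noncommutative local rings -/

section LocalRings

variable {A : Type} [Ring A]

theorem isUnit_of_mul_isUnit_local [Nontrivial A] (hA : ∀ a : A, IsUnit a ∨ IsUnit (1 - a))
    {a u : A} (h : u * a = 1) : IsUnit a := by
  have hidem : (a * u) * (1 - a * u) = 0 := by
    have : a * u * (a * u) = a * u := by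
      calc a * u * (a * u) = a * (u * a) * u := by simp only [mul_assoc]
        _ = a * u := by rw [h, mul_one]
    rw [mul_sub, mul_one, this, sub_self]
  rcases hA (a * u) with h1 | h1
  · have h2 : 1 - a * u = 0 := h1.mul_right_eq_zero.1 hidem
    have h3 : a * u = 1 := (sub_eq_zero.1 h2).symm
    exact ⟨⟨a, u, h3, h⟩, rfl⟩
  · have h2 : a * u = 0 := h1.mul_left_eq_zero.1 hidem
    exfalso
    have h3 : (u * a) * (u * a) = 0 := by
      calc u * a * (u * a) = u * (a * u) * a := by simp only [mul_assoc]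
        _ = 0 := by rw [h2, mul_zero, zero_mul]
    rw [h, mul_one] at h3
    exact one_ne_zero h3

theorem mem_jacobson_iff_local [Nontrivial A] (hA : ∀ a : A, IsUnit a ∨ IsUnit (1 - a)) (a : A) :
    a ∈ Ring.jacobson A ↔ ¬ IsUnit a := by
  rw [← Ideal.jacobson_bot, Ideal.mem_jacobson_iff]
  constructor
  · rintro h ⟨u, rfl⟩
    obtain ⟨z, hz⟩ := h (-(↑u⁻¹ : A))
    have h1 : z * -(↑u⁻¹ : A) * (u : A) + z - 1 = -1 := by
      rw [mul_neg, neg_mul, mul_assoc, Units.inv_mul, mul_one]
      abel
    rw [h1] at hz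
    have : (-1 : A) = 0 := by simpa using hz
    exact one_ne_zero (neg_eq_zero.1 this)
  · intro h y
    rcases hA (-(y * a)) with h1 | h1
    · exfalso
      obtain ⟨u, hu⟩ := h1
      apply h
      apply isUnit_of_mul_isUnit_local hA (u := -(↑u⁻¹ : A) * y)
      have : (-(↑u⁻¹ : A) * y) * a = ↑u⁻¹ * (u : A) := by rw [hu]; simp [mul_assoc]
      rw [this, Units.inv_mul]
    · obtain ⟨u, hu⟩ := h1
      refine ⟨(↑u⁻¹ : A), ?_⟩
      have h2 : (↑u⁻¹ : A) * y * a + ↑u⁻¹ - 1 = ↑u⁻¹ * (u : A) - 1 := by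
        rw [hu, mul_sub, mul_neg, mul_one, ← mul_assoc]
        abel
      rw [h2, Units.inv_mul, sub_self]
      exact Submodule.zero_mem _

end LocalRings

/-! ### endomorphisms of the hull of a simple module -/

section Hull

variable {F : Type} [Ring F] {I : Type} [AddCommGroup I] [Module F I]

theorem isUnit_of_hull (hI : Module.Baer F I) {v : I} (hv : v ≠ 0)
    (hess : ∀ x : I, x ≠ 0 → ∃ a : F, a • x = v) (θ : Module.End F I) (h : θ v ≠ 0) :
    IsUnit θ := by
  have hinj : ∀ x, θ x = 0 → x = 0 := by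
    intro x hx
    by_contra hne
    obtain ⟨a, ha⟩ := hess x hne
    apply h
    rw [← ha, map_smul, hx, smul_zero]
  obtain ⟨ψ, hψ⟩ := baer_factor hI θ (LinearMap.id) (fun x hx => hinj x hx)
  have hψθ : ∀ x, ψ (θ x) = x := hψ
  have hψv : ψ v ≠ 0 := by
    intro h0
    obtain ⟨a, ha⟩ := hess (θ v) h
    have h1 : ψ (a • θ v) = a • v := by rw [map_smul, hψθ]
    rw [ha, h0] at h1
    have h2 : θ (a • v) = v := by rw [map_smul, ha]
    rw [← h1, map_zero] at h2
    exact hv h2.symm
  have hψinj : ∀ x, ψ x = 0 → x = 0 := by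
    intro x hx
    by_contra hne
    obtain ⟨a, ha⟩ := hess x hne
    apply hψv
    rw [← ha, map_smul, hx, smul_zero]
  have hθψ : ∀ x, θ (ψ x) = x := by
    intro x
    have h1 : ψ (θ (ψ x) - x) = 0 := by rw [map_sub, hψθ, sub_self]
    exact sub_eq_zero.1 (hψinj _ h1)
  exact ⟨⟨θ, ψ, LinearMap.ext hθψ, LinearMap.ext hψθ⟩, rfl⟩

theorem exists_smul_of_hull (hI : Module.Baer F I) {v : I} (hv : v ≠ 0)
    (hess : ∀ x : I, x ≠ 0 → ∃ a : F, a • x = v) (θ : Module.End F I) :
    ∃ a : F, θ v = a • v := by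
  by_cases h : θ v = 0
  · exact ⟨0, by rw [h, zero_smul]⟩
  · obtain ⟨u, hu⟩ := isUnit_of_hull hI hv hess θ h
    have h1 : ∀ x, θ ((↑u⁻¹ : Module.End F I) x) = x := by
      intro x
      have := LinearMap.congr_fun (u.mul_inv) x
      rw [hu] at this
      exact this
    have h2 : (↑u⁻¹ : Module.End F I) v ≠ 0 := by
      intro h0
      have := h1 v
      rw [h0, map_zero] at this
      exact hv this.symm
    obtain ⟨a, ha⟩ := hess _ h2
    refine ⟨a, ?_⟩
    rw [← ha, map_smul, h1, ha]

end Hull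

section Res

variable {R S : Type} [Ring R] [Ring S] {e : S ≃+* Rᵐᵒᵖ} {G I : Type} [AddCommGroup G] [Module R G]
  [AddCommGroup I] [Module (Module.End R G) I]

/-- `post` as a ring homomorphism -/
def postHom (e : S ≃+* Rᵐᵒᵖ) :
    Module.End (Module.End R G) I →+* Module.End S (Dual e G I) where
  toFun := post e
  map_one' := rfl
  map_mul' _ _ := rfl
  map_zero' := rfl
  map_add' _ _ := rfl

theorem isUnit_iff [IsArtinian (Module.End R G) G] (hI : Module.Baer (Module.End R G) I) {v : I}
    (hv : v ≠ 0) (hess : ∀ x : I, x ≠ 0 → ∃ a : Module.End R G, a • x = v)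
    {z₀ : Dual e G I} {g₀ : G} (h0 : z₀.ev g₀ = v) (l : Module.End S (Dual e G I)) :
    IsUnit l ↔ (l z₀).ev g₀ ≠ 0 := by
  constructor
  · rintro ⟨u, rfl⟩ h
    obtain ⟨θ, hθ⟩ := exists_post hI (↑u⁻¹ : Module.End S (Dual e G I))
    have h1 : ((↑u⁻¹ : Module.End S (Dual e G I)) ((u : Module.End S (Dual e G I)) z₀)) = z₀ :=
      LinearMap.congr_fun u.inv_mul z₀
    have h2 := congrArg (fun z => Dual.ev z g₀) h1
    simp only [hθ] at h2
    rw [post_apply, h, map_zero, h0] at h2
    exact hv h2.symm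
  · intro h
    obtain ⟨θ, rfl⟩ := exists_post hI l
    rw [post_apply, h0] at h
    exact (isUnit_of_hull hI hv hess θ h).map (postHom e)

theorem local_dual [IsArtinian (Module.End R G) G] (hI : Module.Baer (Module.End R G) I) {v : I}
    (hv : v ≠ 0) (hess : ∀ x : I, x ≠ 0 → ∃ a : Module.End R G, a • x = v)
    {z₀ : Dual e G I} {g₀ : G} (h0 : z₀.ev g₀ = v) (l : Module.End S (Dual e G I)) :
    IsUnit l ∨ IsUnit (1 - l) := by
  rw [isUnit_iff hI hv hess h0, isUnit_iff hI hv hess h0]
  by_cases h : (l z₀).ev g₀ = 0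
  · right
    show (z₀ - l z₀).ev g₀ ≠ 0
    rw [Dual.ev_sub, h, sub_zero, h0]
    exact hv
  · exact Or.inl h

/-- The residue rings of `End(G)` and of the endomorphism ring of the dual are opposite. -/
theorem residue [IsArtinian (Module.End R G) G] [Nontrivial (Module.End R G)]
    (hE : ∀ a : Module.End R G, IsUnit a ∨ IsUnit (1 - a))
    (hI : Module.Baer (Module.End R G) I) {v : I}
    (hv : v ≠ 0) (hess : ∀ x : I, x ≠ 0 → ∃ a : Module.End R G, a • x = v)
    {z₀ : Dual e G I} {g₀ : G} (h0 : z₀.ev g₀ = v) :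
    Nonempty ((Module.End S (Dual e G I) ⧸ Ring.jacobson (Module.End S (Dual e G I))) ≃+*
      (Module.End R G ⧸ Ring.jacobson (Module.End R G))ᵐᵒᵖ) := by
  classical
  have hJ : ∀ a : Module.End R G, a • v = 0 ↔ a ∈ Ring.jacobson (Module.End R G) := by
    intro a
    rw [mem_jacobson_iff_local hE]
    constructor
    · rintro h ⟨u, rfl⟩
      apply hv
      have : (↑u⁻¹ : Module.End R G) • (u : Module.End R G) • v = v := by
        rw [← mul_smul, Units.inv_mul, one_smul]
      rw [← this, h, smul_zero]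
    · intro h
      by_contra hne
      obtain ⟨b, hb⟩ := hess _ hne
      rw [← mul_smul] at hb
      rcases hE (b * a) with h1 | h1
      · obtain ⟨u, hu⟩ := h1
        apply h
        apply isUnit_of_mul_isUnit_local hE (u := (↑u⁻¹ : Module.End R G) * b)
        rw [mul_assoc, ← hu, Units.inv_mul]
      · obtain ⟨u, hu⟩ := h1
        have h2 : (1 - b * a) • v = 0 := by rw [sub_smul, one_smul, hb, sub_self]
        apply hv
        have : (↑u⁻¹ : Module.End R G) • (u : Module.End R G) • v = v := by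
          rw [← mul_smul, Units.inv_mul, one_smul]
        rw [← this, hu, h2, smul_zero]
  have hmk : ∀ a b : Module.End R G, a • v = b • v →
      (Ideal.Quotient.mk (Ring.jacobson (Module.End R G)) a) =
        Ideal.Quotient.mk (Ring.jacobson (Module.End R G)) b := by
    intro a b hab
    rw [Ideal.Quotient.mk_eq_mk_iff_sub_mem, ← hJ, sub_smul, hab, sub_self]
  have hex : ∀ l : Module.End S (Dual e G I), ∃ a : Module.End R G, (l z₀).ev g₀ = a • v := by
    intro l
    obtain ⟨θ, rfl⟩ := exists_post hI l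
    rw [post_apply, h0]
    exact exists_smul_of_hull hI hv hess θ
  choose c hc using hex
  have hmul : ∀ l l' : Module.End S (Dual e G I), ((l * l') z₀).ev g₀ = (c l' * c l) • v := by
    intro l l'
    obtain ⟨θ, rfl⟩ := exists_post hI l
    show (post e θ (l' z₀)).ev g₀ = _
    rw [post_apply, hc l', map_smul, mul_smul]
    congr 1
    have := hc (post e θ)
    rw [post_apply, h0] at this
    exact this
  let ρ : Module.End S (Dual e G I) →+*
      (Module.End R G ⧸ Ring.jacobson (Module.End R G))ᵐᵒᵖ :=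
    { toFun := fun l => op (Ideal.Quotient.mk _ (c l))
      map_one' := by
        rw [← op_one, ← map_one (Ideal.Quotient.mk (Ring.jacobson (Module.End R G)))]
        congr 1
        apply hmk
        rw [← hc, one_smul]
        exact h0
      map_mul' := fun l l' => by
        rw [← op_mul, ← map_mul]
        congr 1
        apply hmk
        rw [← hc, hmul]
      map_zero' := by
        rw [← op_zero, ← map_zero (Ideal.Quotient.mk (Ring.jacobson (Module.End R G)))]
        congr 1
        apply hmk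
        rw [← hc, zero_smul]
        rfl
      map_add' := fun l l' => by
        rw [← op_add, ← map_add]
        congr 1
        apply hmk
        rw [← hc, add_smul, ← hc, ← hc]
        rfl }
  have hρ : ∀ l, ρ l = op (Ideal.Quotient.mk _ (c l)) := fun l => rfl
  have hker : ∀ l, ρ l = 0 ↔ l ∈ Ring.jacobson (Module.End S (Dual e G I)) := by
    intro l
    have hnt : Nontrivial (Module.End S (Dual e G I)) := by
      refine ⟨⟨1, 0, fun h => ?_⟩⟩
      have h1 := congrArg (fun l : Module.End S (Dual e G I) => (l z₀).ev g₀) h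
      have h2 : z₀.ev g₀ = 0 := h1
      rw [h0] at h2
      exact hv h2
    rw [mem_jacobson_iff_local (local_dual hI hv hess h0), isUnit_iff hI hv hess h0, not_not,
      hρ, op_eq_zero_iff, Ideal.Quotient.eq_zero_iff_mem, ← hJ, hc]
  have hsurj : Function.Surjective ρ := by
    intro x
    obtain ⟨a, ha⟩ := Ideal.Quotient.mk_surjective (unop x)
    obtain ⟨θ, hθ⟩ := baer_factor hI (LinearMap.toSpanSingleton (Module.End R G) I v)
      (LinearMap.toSpanSingleton (Module.End R G) I (a • v)) (by
        intro b hb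
        rw [LinearMap.toSpanSingleton_apply] at hb ⊢
        rw [← mul_smul, hJ]
        exact Ideal.mul_mem_right _ _ ((hJ b).1 hb))
    refine ⟨post e θ, ?_⟩
    rw [hρ, ← op_unop x, ← ha]
    congr 1
    apply hmk
    rw [← hc, post_apply, h0]
    have := hθ 1
    rw [LinearMap.toSpanSingleton_apply, LinearMap.toSpanSingleton_apply, one_smul, one_smul] at this
    exact this
  let ρ' : (Module.End S (Dual e G I) ⧸ Ring.jacobson (Module.End S (Dual e G I))) →+*
      (Module.End R G ⧸ Ring.jacobson (Module.End R G))ᵐᵒᵖ :=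
    Ideal.Quotient.lift _ ρ (fun l hl => (hker l).2 hl)
  refine ⟨RingEquiv.ofBijective ρ' ⟨?_, ?_⟩⟩
  · rw [injective_iff_map_eq_zero]
    intro x hx
    obtain ⟨l, rfl⟩ := Ideal.Quotient.mk_surjective x
    rw [Ideal.Quotient.lift_mk] at hx
    exact Ideal.Quotient.eq_zero_iff_mem.2 ((hker l).1 hx)
  · intro x
    obtain ⟨l, hl⟩ := hsurj x
    exact ⟨Ideal.Quotient.mk _ l, by rw [Ideal.Quotient.lift_mk, hl]⟩

end Res

end Pool.Agent.GW215
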